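import Mathlib

set_option autoImplicit false

/-!
Linear algebra: a block matrix whose rows from different blocks are parallel in every block of
columns is a block permutation matrix.
-/

namespace Pool.Agent.Helper97.DixA

variable {k : Type*} [Field k]

/-- Two vectors are parallel. -/
def Par (v w : Fin 3 → k) : Prop := ∀ a b, v a * w b = v b * w a

theorem Par.symm {v w : Fin 3 → k} (h : Par v w) : Par w v := fun a b => by
  have := h b a
  linear_combination this

theorem Par.exists_smul {v w : Fin 3 → k} (h : Par v w) (hw : w ≠ 0) : ∃ c : k, v = c • w := by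
  obtain ⟨b, hb⟩ := Function.ne_iff.mp hw
  have hb' : w b ≠ 0 := hb
  refine ⟨v b / w b, ?_⟩
  funext a
  rw [Pi.smul_apply, smul_eq_mul]
  field_simp
  exact h a b

theorem exists_orth (v : Fin 3 → k) : ∃ u : Fin 3 → k, u ≠ 0 ∧ ∑ b, v b * u b = 0 := by
  by_cases h : v 0 = 0 ∧ v 1 = 0
  · refine ⟨![1, 0, 0], ?_, ?_⟩
    · intro h0
      have := congrFun h0 0
      simp at this
    · rw [Fin.sum_univ_three]; simp [h.1]
  · refine ⟨![v 1, - v 0, 0], ?_, ?_⟩
    · intro h0
      apply h
      constructor
      · have := congrFun h0 1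
        simpa using this
      · have := congrFun h0 0
        simpa using this
    · rw [Fin.sum_univ_three]; simp; ring

variable {ι : Type*} [DecidableEq ι] [Fintype ι]

theorem one_block (L L' : Matrix (ι × Fin 3) (ι × Fin 3) k) (hL : L' * L = 1)
    (hp : ∀ (j : ι) (p q : ι × Fin 3), p.1 ≠ q.1 →
      Par (fun b => L p (j, b)) (fun b => L q (j, b))) (j : ι) :
    ∃ i, ∀ p : ι × Fin 3, p.1 ≠ i → ∀ b, L p (j, b) = 0 := by
  by_contra hcon
  push Not at hcon
  have hall : ∀ v : Fin 3 → k, (∀ q, ∃ c : k, (fun b => L q (j, b)) = c • v) → False := by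
    intro v hv
    obtain ⟨u, hu0, hu⟩ := exists_orth v
    obtain ⟨b0, hb0⟩ := Function.ne_iff.mp hu0
    apply hb0
    set x : ι × Fin 3 → k := fun q => if q.1 = j then u q.2 else 0 with hx
    have h1 : L.mulVec x = 0 := by
      funext q
      obtain ⟨c, hc⟩ := hv q
      rw [Matrix.mulVec, dotProduct, Fintype.sum_prod_type, Pi.zero_apply,
        Finset.sum_eq_single j]
      · simp only [hx, if_true]
        have h2 : ∑ b, L q (j, b) * u b = c * ∑ b, v b * u b := by
          rw [Finset.mul_sum]
          refine Finset.sum_congr rfl fun b _ => ?_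
          have := congrFun hc b
          simp only [Pi.smul_apply, smul_eq_mul] at this
          rw [this]; ring
        rw [h2, hu, mul_zero]
      · intro i _ hi
        refine Finset.sum_eq_zero fun b _ => ?_
        simp only [hx, if_neg hi, mul_zero]
      · intro hc; exact absurd (Finset.mem_univ j) hc
    have h2 : (L' * L).mulVec x = 0 := by
      rw [← Matrix.mulVec_mulVec, h1, Matrix.mulVec_zero]
    rw [hL, Matrix.one_mulVec] at h2
    have := congrFun h2 (j, b0)
    simpa [hx] using this
  obtain ⟨p0, -, b0, hb0⟩ := hcon j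
  obtain ⟨p1, hp1, b1, hb1⟩ := hcon p0.1
  have hv0 : (fun b => L p0 (j, b)) ≠ 0 := fun h => hb0 (congrFun h b0)
  have hv1 : (fun b => L p1 (j, b)) ≠ 0 := fun h => hb1 (congrFun h b1)
  obtain ⟨c1, hc1⟩ := (hp j p1 p0 hp1).exists_smul hv0
  refine hall (fun b => L p0 (j, b)) fun q => ?_
  by_cases hq : q.1 = p0.1
  · obtain ⟨c, hc⟩ := (hp j q p1 (by rw [hq]; exact Ne.symm hp1)).exists_smul hv1
    exact ⟨c * c1, by rw [hc, hc1, smul_smul]⟩
  · exact (hp j q p0 hq).exists_smul hv0

/-- Block structure. -/
theorem block_perm (L L' : Matrix (ι × Fin 3) (ι × Fin 3) k) (hL : L' * L = 1)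
    (hp : ∀ (j : ι) (p q : ι × Fin 3), p.1 ≠ q.1 →
      Par (fun b => L p (j, b)) (fun b => L q (j, b))) :
    ∃ s : Equiv.Perm ι, (∀ i a j b, j ≠ s i → L (i, a) (j, b) = 0) ∧
      ∀ i, (Matrix.of fun a b => L (i, a) (s i, b)).det ≠ 0 := by
  choose t ht using one_block L L' hL hp
  have hL2 : L * L' = 1 := mul_eq_one_comm.mp hL
  have hsurj : Function.Surjective t := by
    intro i
    by_contra hcon
    push Not at hcon
    have h1 : ∀ q, L (i, 0) q = 0 := fun q => ht q.1 (i, 0) (fun h => hcon q.1 h.symm) q.2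
    have h2 := congrFun (congrFun hL2 (i, 0)) (i, 0)
    rw [Matrix.mul_apply, Matrix.one_apply_eq, Finset.sum_eq_zero] at h2
    · exact zero_ne_one h2
    · intro q _; rw [h1 q, zero_mul]
  have hbij : Function.Bijective t := ⟨Finite.injective_iff_surjective.mpr hsurj, hsurj⟩
  refine ⟨(Equiv.ofBijective t hbij).symm, ?_, ?_⟩
  · intro i a j b hj
    refine ht j (i, a) ?_ b
    intro hcon
    apply hj
    rw [Equiv.eq_symm_apply]
    exact hcon.symm
  · intro i
    set j := (Equiv.ofBijective t hbij).symm i with hj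
    have hz : ∀ j', j' ≠ j → ∀ a b, L (i, a) (j', b) = 0 := by
      intro j' hj' a b
      refine ht j' (i, a) ?_ b
      intro hcon
      apply hj'
      rw [hj, Equiv.eq_symm_apply]
      exact hcon.symm
    have h1 : (Matrix.of fun a b => L (i, a) (j, b)) *
        (Matrix.of fun b a => L' (j, b) (i, a)) = 1 := by
      ext a a'
      have h2 := congrFun (congrFun hL2 (i, a)) (i, a')
      rw [Matrix.mul_apply, Fintype.sum_prod_type, Finset.sum_eq_single j] at h2
      · rw [Matrix.mul_apply]
        simp only [Matrix.of_apply]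
        rw [h2, Matrix.one_apply, Matrix.one_apply]
        simp
      · intro j' _ hj'
        exact Finset.sum_eq_zero fun b _ => by rw [hz j' hj', zero_mul]
      · intro hc; exact absurd (Finset.mem_univ j) hc
    intro h0
    have h2 := congrArg Matrix.det h1
    rw [Matrix.det_mul, h0, zero_mul, Matrix.det_one] at h2
    exact zero_ne_one h2

end Pool.Agent.Helper97.DixA
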