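import Mathlib
import Pool.Agent.Helper97.Dix.Pot

set_option autoImplicit false

/-!
Linear vector fields killing an isolated singularity potential vanish.
-/

namespace Pool.Agent.Helper97.DixA

open MvPolynomial Pool.Agent.Helper97.Dix

section comm

theorem pderiv_comm' {σ R : Type*} [CommRing R] (i j : σ) (f : MvPolynomial σ R) :
    pderiv i (pderiv j f) = pderiv j (pderiv i f) := by
  have h : ⁅(pderiv i : Derivation R (MvPolynomial σ R) (MvPolynomial σ R)),
      (pderiv j : Derivation R (MvPolynomial σ R) (MvPolynomial σ R))⁆ = 0 := by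
    have hz : ∀ a b l : σ, pderiv a (pderiv b (X l : MvPolynomial σ R)) = 0 := by
      intro a b l
      by_cases hb : l = b
      · subst hb; rw [pderiv_X_self, pderiv_one]
      · rw [pderiv_X_of_ne hb, map_zero]
    apply MvPolynomial.derivation_ext
    intro l
    rw [Derivation.commutator_apply, Derivation.zero_apply, hz, hz, sub_zero]
  have h2 := congrArg (fun D : Derivation R (MvPolynomial σ R) (MvPolynomial σ R) => D f) h
  simp only [Derivation.commutator_apply, Derivation.zero_apply] at h2
  exact sub_eq_zero.mp h2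

end comm

variable {k : Type*} [Field k] {Ω : MvPolynomial (Fin 3) k} {N : ℕ}

/-- The gradient of the potential vanishes only at the origin. -/
theorem grad_zero (h : IsISPotential Ω N) {K : Type*} [Field K] [Algebra k K] (w : Fin 3 → K)
    (hw : ∀ c, aeval w (pderiv c Ω) = 0) : w = 0 := by
  obtain ⟨s, hs⟩ := exists_pow h
  funext c
  obtain ⟨a, -, ha⟩ := hs c
  have h1 := congrArg (aeval w) ha
  rw [map_pow, aeval_X, map_sum] at h1
  have h2 : ∑ x, (aeval w) (a x * (pderiv x) Ω) = 0 :=
    Finset.sum_eq_zero fun x _ => by rw [map_mul, hw x, mul_zero]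
  rw [h2] at h1
  simpa using eq_zero_of_pow_eq_zero h1

/-- The three derivatives are linearly independent. -/
theorem lin_indep (h : IsISPotential Ω N) (hN : 2 ≤ N) (a : Fin 3 → k)
    (ha : ∑ c, C (a c) * pderiv c Ω = 0) : a = 0 := by
  by_contra hne
  obtain ⟨c0, hc0⟩ := Function.ne_iff.mp hne
  have hc0' : a c0 ≠ 0 := hc0
  have hcc : ∀ c, constantCoeff (pderiv c Ω) = 0 := fun c =>
    (pderiv_homog h.homogeneous c).coeff_eq_zero (by simp; omega)
  have key : ∀ c1 c2 : Fin 3, (∑ c, C (a c) * pderiv c Ω = C (a c0) * pderiv c0 Ω +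
      C (a c1) * pderiv c1 Ω + C (a c2) * pderiv c2 Ω) → (∀ c, c = c0 ∨ c = c1 ∨ c = c2) →
      False := by
    intro c1 c2 hsum hall
    rw [hsum] at ha
    refine no_two h k (pderiv c1 Ω) (pderiv c2 Ω) (hcc c1) (hcc c2) fun c => ?_
    have hm : map (algebraMap k k) (pderiv c Ω) = pderiv c Ω := by
      rw [Algebra.algebraMap_self]
      exact MvPolynomial.map_id _
    rw [hm]
    rcases hall c with rfl | rfl | rfl
    · have h1 : pderiv c Ω = C (-(a c)⁻¹ * a c1) * pderiv c1 Ω +
          C (-(a c)⁻¹ * a c2) * pderiv c2 Ω := by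
        have h2 : C (a c)⁻¹ * (C (a c) * pderiv c Ω + C (a c1) * pderiv c1 Ω +
            C (a c2) * pderiv c2 Ω) = 0 := by rw [ha, mul_zero]
        have h3 : (C (a c)⁻¹ : MvPolynomial (Fin 3) k) * C (a c) = 1 := by
          rw [← C_mul, inv_mul_cancel₀ hc0', C_1]
        simp only [C_mul, C_neg]
        linear_combination h2 + (pderiv c Ω) * (- h3)
      rw [h1]
      exact Ideal.add_mem _ (Ideal.mul_mem_left _ _ (Ideal.subset_span (by simp)))
        (Ideal.mul_mem_left _ _ (Ideal.subset_span (by simp)))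
    · exact Ideal.subset_span (by simp)
    · exact Ideal.subset_span (by simp)
  fin_cases c0
  · exact key 1 2 (by rw [Fin.sum_univ_three]; rfl) (by decide)
  · exact key 0 2 (by rw [Fin.sum_univ_three]; simp only [Fin.mk_one]; ring) (by decide)
  · exact key 0 1 (by
      rw [Fin.sum_univ_three]
      change _ = C (a 2) * pderiv 2 Ω + C (a 0) * pderiv 0 Ω + C (a 1) * pderiv 1 Ω
      ring) (by decide)

/-- The derivative of the potential along a linear vector field. -/
noncomputable def vf (B : Matrix (Fin 3) (Fin 3) k) (F : MvPolynomial (Fin 3) k) :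
    MvPolynomial (Fin 3) k := ∑ c, (∑ b, C (B c b) * X b) * pderiv c F

/-- If a linear vector field kills the potential then its eigenvalues are multiplied by
`-(N - 1)`. -/
theorem eig_step (h : IsISPotential Ω N) (B : Matrix (Fin 3) (Fin 3) k)
    (hB : vf B Ω = 0) {K : Type*} [Field K] [Algebra k K] (l : K)
    (hl : (Matrix.scalar (Fin 3) l - B.map (algebraMap k K)).det = 0) :
    (Matrix.scalar (Fin 3) (-((N - 1 : ℕ) : K) * l) - B.map (algebraMap k K)).det = 0 := by
  obtain ⟨w, hw0, hw⟩ := Matrix.exists_mulVec_eq_zero_iff.mpr hl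
  have hw' : ∀ c, ∑ b, algebraMap k K (B c b) * w b = l * w c := by
    intro c
    have h1 := congrFun hw c
    rw [Matrix.sub_mulVec, Pi.sub_apply, Pi.zero_apply, sub_eq_zero] at h1
    simp only [Matrix.mulVec, dotProduct, Matrix.map_apply, Matrix.scalar_apply,
      Matrix.diagonal_apply, ite_mul, zero_mul, Finset.sum_ite_eq, Finset.mem_univ, if_true] at h1
    exact h1.symm
  set u : Fin 3 → K := fun c => aeval w (pderiv c Ω) with hu
  have hu0 : u ≠ 0 := fun h0 => hw0 (grad_zero h w fun c => congrFun h0 c)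
  have hd : ∀ d, ∑ c, algebraMap k K (B c d) * u c + l * (((N - 1 : ℕ) : K) * u d) = 0 := by
    intro d
    have h1 := congrArg (fun F => aeval w (pderiv d F)) hB
    simp only [map_zero, vf, map_sum, Derivation.leibniz, smul_eq_mul, map_add, map_mul,
      pderiv_C, pderiv_X, mul_zero, add_zero, aeval_C, aeval_X] at h1
    have h2 := congrArg (aeval w) ((pderiv_homog h.homogeneous d).sum_X_mul_pderiv)
    simp only [map_sum, map_mul, aeval_X, map_nsmul] at h2
    rw [Finset.sum_add_distrib] at h1
    have h3 : ∑ x, (∑ x_1, (algebraMap k K) (B x x_1) * w x_1) *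
        (aeval w) ((pderiv d) ((pderiv x) Ω)) = l * (((N - 1 : ℕ) : K) * u d) := by
      rw [nsmul_eq_mul] at h2
      rw [hu]
      simp only
      rw [← h2, Finset.mul_sum]
      refine Finset.sum_congr rfl fun x _ => ?_
      rw [hw' x, pderiv_comm' d x]
      ring
    rw [h3] at h1
    have h4 : ∑ x, (aeval w) ((pderiv x) Ω) * ∑ x_1, (algebraMap k K) (B x x_1) *
        (aeval w) (Pi.single (M := fun _ => MvPolynomial (Fin 3) k) d 1 x_1) =
        ∑ c, algebraMap k K (B c d) * u c := by
      refine Finset.sum_congr rfl fun x _ => ?_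
      rw [Finset.sum_eq_single d]
      · simp [hu, mul_comm]
      · intro b _ hb
        rw [Pi.single_eq_of_ne hb]
        simp
      · intro hcon; exact absurd (Finset.mem_univ d) hcon
    rw [← h4]
    rw [add_comm] at h1
    exact h1
  rw [← Matrix.exists_vecMul_eq_zero_iff]
  refine ⟨u, hu0, ?_⟩
  funext d
  rw [Matrix.vecMul_sub, Pi.sub_apply, Pi.zero_apply, sub_eq_zero]
  simp only [Matrix.vecMul, dotProduct, Matrix.map_apply, Matrix.scalar_apply,
      Matrix.diagonal_apply, mul_ite, mul_zero, Finset.sum_ite_eq', Finset.mem_univ, if_true]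
  have := hd d
  have h5 : ∑ c, u c * algebraMap k K (B c d) = ∑ c, algebraMap k K (B c d) * u c :=
    Finset.sum_congr rfl fun c _ => mul_comm _ _
  rw [h5]
  linear_combination -this

/-- A linear vector field with nonzero determinant does not kill the potential. -/
theorem det_zero [CharZero k] (h : IsISPotential Ω N) (hN : 3 ≤ N) (B : Matrix (Fin 3) (Fin 3) k)
    (hB : vf B Ω = 0) : B.det = 0 := by
  classical
  by_contra hdet
  set K := AlgebraicClosure k
  have hch : CharZero K := charZero_of_injective_algebraMap (algebraMap k K).injective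
  set M : Matrix (Fin 3) (Fin 3) K := B.map (algebraMap k K) with hM
  have hdM : M.det ≠ 0 := by
    have h1 : M.det = algebraMap k K B.det := by
      rw [hM, RingHom.map_det]; rfl
    rw [h1]
    exact fun h0 => hdet ((map_eq_zero _).mp h0)
  obtain ⟨l, hl⟩ := IsAlgClosed.exists_root M.charpoly (by
    rw [Matrix.charpoly_degree_eq_dim]; simp)
  have hroot : ∀ t : K, M.charpoly.IsRoot t ↔ (Matrix.scalar (Fin 3) t - M).det = 0 := by
    intro t
    rw [Polynomial.IsRoot, Matrix.eval_charpoly]
  have hl0 : l ≠ 0 := by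
    rintro rfl
    have := (hroot 0).mp hl
    rw [map_zero, zero_sub, Matrix.det_neg] at this
    simp at this
    exact hdM this
  have hstep : ∀ m : ℕ, M.charpoly.IsRoot ((-((N - 1 : ℕ) : K)) ^ m * l) := by
    intro m
    induction m with
    | zero => simpa using hl
    | succ m ih =>
      rw [hroot] at ih ⊢
      have := eig_step h B hB _ ih
      rw [← mul_assoc, ← pow_succ'] at this
      exact this
  have hfin : (Set.range fun m : ℕ => (-((N - 1 : ℕ) : K)) ^ m * l).Finite := by
    refine Set.Finite.subset (M.charpoly.roots.toFinset.finite_toSet) ?_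
    rintro _ ⟨m, rfl⟩
    simp only [Finset.mem_coe, Multiset.mem_toFinset]
    exact (Polynomial.mem_roots (Matrix.charpoly_monic M).ne_zero).mpr (hstep m)
  have hinj : Function.Injective fun m : ℕ => (-((N - 1 : ℕ) : K)) ^ m * l := by
    intro a b hab
    have h1 : (-((N - 1 : ℕ) : K)) ^ a = (-((N - 1 : ℕ) : K)) ^ b := mul_right_cancel₀ hl0 hab
    have h2 : (((N - 1) ^ a : ℕ) : K) ^ 2 = (((N - 1) ^ b : ℕ) : K) ^ 2 := by
      have h3 := congrArg (fun x => x ^ 2) h1
      simp only [← pow_mul] at h3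
      rw [mul_comm a 2, mul_comm b 2, pow_mul, pow_mul, neg_sq] at h3
      push_cast
      rw [← pow_mul, ← pow_mul, mul_comm a 2, mul_comm b 2, pow_mul, pow_mul]
      exact h3
    have h4 : ((N - 1) ^ a) ^ 2 = ((N - 1) ^ b) ^ 2 := by exact_mod_cast h2
    have h5 : (N - 1) ^ a = (N - 1) ^ b := by
      have := Nat.pow_left_injective (n := 2) (by norm_num) h4
      exact this
    exact Nat.pow_right_injective (by omega) h5
  exact Set.infinite_range_of_injective hinj hfin

/-- The top component of a divisor of a homogeneous polynomial is a divisor. -/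
theorem top_dvd {g q : MvPolynomial (Fin 3) k} {n : ℕ} (hg : g.IsHomogeneous n) (hg0 : g ≠ 0)
    (hq : q ∣ g) : homogeneousComponent q.totalDegree q ∣ g := by
  obtain ⟨r, rfl⟩ := hq
  have hq0 : q ≠ 0 := fun h0 => hg0 (by rw [h0, zero_mul])
  have hr0 : r ≠ 0 := fun h0 => hg0 (by rw [h0, mul_zero])
  have h1 := hc_top_mul (dl_succ_iff.mpr (le_refl q.totalDegree))
    (dl_succ_iff.mpr (le_refl r.totalDegree))
  have h2 : q.totalDegree + r.totalDegree = n := by
    rw [← totalDegree_mul_of_isDomain hq0 hr0]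
    exact hg.totalDegree hg0
  rw [h2, homogeneousComponent_of_mem hg, if_pos rfl] at h1
  exact ⟨_, h1⟩

theorem isUnit_of_deg {q : MvPolynomial (Fin 3) k} (hq : q ≠ 0) (hd : q.totalDegree = 0) :
    IsUnit q := by
  rw [totalDegree_eq_zero_iff_eq_C] at hd
  rw [hd]
  refine IsUnit.map C (isUnit_iff_ne_zero.mpr ?_)
  intro hz
  rw [hz, C_0] at hd
  exact hq hd

/-- The modified derivatives. -/
noncomputable def gd (Ω : MvPolynomial (Fin 3) k) (u : Fin 3 → k) (c0 c : Fin 3) :
    MvPolynomial (Fin 3) k := C (u c0) * pderiv c Ω - C (u c) * pderiv c0 Ω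

theorem gd_homog (h : IsISPotential Ω N) (u : Fin 3 → k) (c0 c : Fin 3) :
    (gd Ω u c0 c).IsHomogeneous (N - 1) :=
  ((pderiv_homog h.homogeneous c).C_mul _).sub ((pderiv_homog h.homogeneous c0).C_mul _)

theorem gd_ne_zero (h : IsISPotential Ω N) (hN : 2 ≤ N) (u : Fin 3 → k) {c0 c : Fin 3}
    (hc : c ≠ c0) (hu : u c0 ≠ 0) : gd Ω u c0 c ≠ 0 := by
  intro h0
  have h1 := lin_indep h hN (fun d => if d = c then u c0 else if d = c0 then - u c else 0) (by
    rw [← h0, gd]
    rw [← Finset.add_sum_erase _ _ (Finset.mem_univ c), ← Finset.add_sum_erase _ _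
      (Finset.mem_erase.mpr ⟨Ne.symm hc, Finset.mem_univ c0⟩), Finset.sum_eq_zero]
    · simp only [if_true, if_neg (Ne.symm hc), C_neg]
      ring
    · intro d hd
      simp only [Finset.mem_erase, Finset.mem_univ, and_true] at hd
      simp only [if_neg hd.1, if_neg hd.2, C_0, zero_mul])
  have h2 := congrFun h1 c
  simp only [if_true, Pi.zero_apply] at h2
  exact hu h2

theorem gd_coprime (h : IsISPotential Ω N) (hN : 2 ≤ N) (u : Fin 3 → k) {c0 c1 c2 : Fin 3}
    (h10 : c1 ≠ c0) (hall : ∀ c, c = c0 ∨ c = c1 ∨ c = c2) (hu : u c0 ≠ 0) :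
    IsRelPrime (gd Ω u c0 c1) (gd Ω u c0 c2) := by
  intro q hq1 hq2
  by_contra hnu
  have hg1 := gd_ne_zero h hN u h10 hu
  have hq0 : q ≠ 0 := by
    rintro rfl
    exact hg1 (zero_dvd_iff.mp hq1)
  have hdeg : 1 ≤ q.totalDegree := by
    by_contra hlt
    exact hnu (isUnit_of_deg hq0 (by omega))
  have ht1 := top_dvd (gd_homog h u c0 c1) hg1 hq1
  have ht2 : homogeneousComponent q.totalDegree q ∣ gd Ω u c0 c2 := by
    by_cases hg2 : gd Ω u c0 c2 = 0
    · rw [hg2]; exact dvd_zero _
    · exact top_dvd (gd_homog h u c0 c2) hg2 hq2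
  refine no_two h k (homogeneousComponent q.totalDegree q) (pderiv c0 Ω)
    ((homogeneousComponent_isHomogeneous _ q).coeff_eq_zero (by simp; omega))
    ((pderiv_homog h.homogeneous c0).coeff_eq_zero (by simp; omega)) fun c => ?_
  have hm : map (algebraMap k k) (pderiv c Ω) = pderiv c Ω := by
    rw [Algebra.algebraMap_self]
    exact MvPolynomial.map_id _
  rw [hm]
  have hmem : ∀ d, homogeneousComponent q.totalDegree q ∣ gd Ω u c0 d →
      pderiv d Ω ∈ Ideal.span {homogeneousComponent q.totalDegree q, pderiv c0 Ω} := by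
    rintro d ⟨r, hr⟩
    have h3 : (C (u c0)⁻¹ : MvPolynomial (Fin 3) k) * C (u c0) = 1 := by
      rw [← C_mul, inv_mul_cancel₀ hu, C_1]
    have h4 : pderiv d Ω = (C (u c0)⁻¹ * r) * homogeneousComponent q.totalDegree q +
        (C (u c0)⁻¹ * C (u d)) * pderiv c0 Ω := by
      rw [gd] at hr
      linear_combination C (u c0)⁻¹ * hr - (pderiv d Ω) * h3
    rw [h4]
    exact Ideal.add_mem _ (Ideal.mul_mem_left _ _ (Ideal.subset_span (by simp)))
      (Ideal.mul_mem_left _ _ (Ideal.subset_span (by simp)))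
  rcases hall c with rfl | rfl | rfl
  · exact Ideal.subset_span (by simp)
  · exact hmem _ ht1
  · exact hmem _ ht2

/-- If `l g + l' g' = 0` with `g, g'` relatively prime and `g'` of degree at least two then the
linear form `l` vanishes. -/
theorem lin_zero {l l' g g' : MvPolynomial (Fin 3) k} (hl : l.totalDegree ≤ 1)
    (hg' : 2 ≤ g'.totalDegree) (hc : IsRelPrime g g') (he : l * g + l' * g' = 0) : l = 0 := by
  by_contra hl0
  have h1 : g' ∣ l * g := ⟨-l', by linear_combination he⟩
  have h2 : g' ∣ l := hc.symm.dvd_of_dvd_mul_right h1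
  obtain ⟨r, hr⟩ := h2
  have hg0 : g' ≠ 0 := by rintro rfl; simp at hg'
  have hr0 : r ≠ 0 := by rintro rfl; rw [mul_zero] at hr; exact hl0 hr
  have := totalDegree_mul_of_isDomain hg0 hr0
  rw [← hr] at this
  omega

/-- A linear vector field which kills the potential vanishes. -/
theorem vf_eq_zero [CharZero k] (h : IsISPotential Ω N) (hN : 3 ≤ N)
    (B : Matrix (Fin 3) (Fin 3) k) (hB : vf B Ω = 0) : B = 0 := by
  have hdet := det_zero h hN B hB
  obtain ⟨u, hu0, hu⟩ := Matrix.exists_vecMul_eq_zero_iff.mpr hdet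
  obtain ⟨c0, hc0⟩ := Function.ne_iff.mp hu0
  have hc0' : u c0 ≠ 0 := hc0
  set l : Fin 3 → MvPolynomial (Fin 3) k := fun c => ∑ b, C (B c b) * X b with hl
  have hld : ∀ c, (l c).totalDegree ≤ 1 := fun c => by
    refine totalDegree_finsetSum_le fun b _ => ?_
    refine (totalDegree_mul _ _).trans ?_
    rw [totalDegree_C, totalDegree_X]
  have hul : ∑ c, C (u c) * l c = 0 := by
    simp only [hl, Finset.mul_sum]
    rw [Finset.sum_comm]
    refine Finset.sum_eq_zero fun b _ => ?_
    have h1 := congrFun hu b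
    simp only [Matrix.vecMul, dotProduct, Pi.zero_apply] at h1
    have h2 : ∑ c, C (u c) * (C (B c b) * X b) = C (∑ c, u c * B c b) * (X b : MvPolynomial _ k) := by
      rw [map_sum, Finset.sum_mul]
      exact Finset.sum_congr rfl fun c _ => by rw [C_mul]; ring
    rw [h2, h1, C_0, zero_mul]
  have hsyz : ∑ c, l c * pderiv c Ω = 0 := hB
  have hg : ∑ c, l c * gd Ω u c0 c = 0 := by
    have h1 : ∑ c, l c * gd Ω u c0 c = C (u c0) * ∑ c, l c * pderiv c Ω -
        (∑ c, C (u c) * l c) * pderiv c0 Ω := by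
      rw [Finset.mul_sum, Finset.sum_mul, ← Finset.sum_sub_distrib]
      exact Finset.sum_congr rfl fun c _ => by rw [gd]; ring
    rw [h1, hsyz, hul]; ring
  have hg0 : gd Ω u c0 c0 = 0 := by rw [gd, sub_self]
  have hdeg : ∀ c, c ≠ c0 → 2 ≤ (gd Ω u c0 c).totalDegree := by
    intro c hc
    rw [(gd_homog h u c0 c).totalDegree (gd_ne_zero h (by omega) u hc hc0')]
    omega
  have key : ∀ c1 c2 : Fin 3, c1 ≠ c0 → c2 ≠ c0 → (∀ c, c = c0 ∨ c = c1 ∨ c = c2) →
      (∀ F : Fin 3 → MvPolynomial (Fin 3) k, ∑ c, F c = F c0 + F c1 + F c2) → ∀ c, l c = 0 := by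
    intro c1 c2 h1 h2 hall hsum
    have hco := gd_coprime h (by omega) u h1 hall hc0'
    rw [hsum, hg0, mul_zero, zero_add] at hg
    have e1 : l c1 = 0 := lin_zero (hld c1) (hdeg c2 h2) hco hg
    have e2 : l c2 = 0 := lin_zero (hld c2) (hdeg c1 h1) hco.symm (by rw [add_comm]; exact hg)
    have e0 : l c0 = 0 := by
      rw [hsum, e1, e2, mul_zero, mul_zero, add_zero, add_zero] at hul
      rcases mul_eq_zero.mp hul with h3 | h3
      · exact absurd ((C_eq_zero).mp h3) hc0'
      · exact h3
    intro c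
    rcases hall c with rfl | rfl | rfl
    · exact e0
    · exact e1
    · exact e2
  have hl0 : ∀ c, l c = 0 := by
    fin_cases c0
    · exact key 1 2 (by decide) (by decide) (by decide) (fun F => Fin.sum_univ_three F)
    · exact key 0 2 (by decide) (by decide) (by decide) (fun F => by
        rw [Fin.sum_univ_three]; simp only [Fin.mk_one]; ring)
    · exact key 0 1 (by decide) (by decide) (by decide) (fun F => by
        rw [Fin.sum_univ_three]
        change _ = F 2 + F 0 + F 1
        ring)
  ext c b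
  have h1 := congrArg (coeff (Finsupp.single b 1)) (hl0 c)
  simp only [hl, coeff_sum, coeff_C_mul, coeff_X, coeff_zero] at h1
  rw [Finset.sum_eq_single b] at h1
  · simpa using h1
  · intro b' _ hb'
    rw [if_neg, mul_zero]
    intro hcon
    exact hb' (Finsupp.single_left_injective one_ne_zero hcon)
  · intro hcon; exact absurd (Finset.mem_univ b) hcon

/-- The operators `B - trace B` are injective on potentials. -/
theorem vf_trace [CharZero k] (h : IsISPotential Ω N) (hN : 4 ≤ N)
    (B : Matrix (Fin 3) (Fin 3) k) (hB : vf B Ω = C B.trace * Ω) : B = 0 := by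
  have hNk : (N : k) ≠ 0 := Nat.cast_ne_zero.mpr (by omega)
  have heul := h.homogeneous.sum_X_mul_pderiv
  have h1 : vf (B - (B.trace / N) • (1 : Matrix (Fin 3) (Fin 3) k)) Ω = 0 := by
    have h2 : vf (B - (B.trace / N) • (1 : Matrix (Fin 3) (Fin 3) k)) Ω =
        vf B Ω - C (B.trace / N) * ∑ c, X c * pderiv c Ω := by
      rw [vf, vf, Finset.mul_sum, ← Finset.sum_sub_distrib]
      refine Finset.sum_congr rfl fun c _ => ?_
      have h3 : ∑ b, C ((B - (B.trace / N) • (1 : Matrix (Fin 3) (Fin 3) k)) c b) *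
          (X b : MvPolynomial (Fin 3) k) = ∑ b, C (B c b) * X b - C (B.trace / N) * X c := by
        simp only [Matrix.sub_apply, Matrix.smul_apply, Matrix.one_apply, smul_eq_mul, C_sub,
          sub_mul, Finset.sum_sub_distrib]
        congr 1
        rw [Finset.sum_eq_single c]
        · simp
        · intro b _ hb
          rw [if_neg (Ne.symm hb), mul_zero, C_0, zero_mul]
        · intro hcon; exact absurd (Finset.mem_univ c) hcon
      rw [h3]; ring
    rw [h2, heul, hB, nsmul_eq_mul, ← mul_assoc]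
    have h4 : (C (B.trace / N) : MvPolynomial (Fin 3) k) * (N : MvPolynomial (Fin 3) k) =
        C B.trace := by
      have : ((N : ℕ) : MvPolynomial (Fin 3) k) = C (N : k) := (map_natCast C N).symm
      rw [this, ← C_mul, div_mul_cancel₀ _ hNk]
    rw [h4, sub_self]
  have h2 := vf_eq_zero h (by omega) _ h1
  have h3 : B = (B.trace / N) • (1 : Matrix (Fin 3) (Fin 3) k) := sub_eq_zero.mp h2
  have h4 := congrArg Matrix.trace h3
  rw [Matrix.trace_smul, Matrix.trace_one, smul_eq_mul, Fintype.card_fin] at h4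
  have h5 : B.trace * ((N : k) - 3) = 0 := by
    field_simp at h4
    push_cast at h4
    linear_combination h4
  rcases mul_eq_zero.mp h5 with h6 | h6
  · rw [h3, h6]; simp
  · exfalso
    have h7 : (N : k) = ((3 : ℕ) : k) := by push_cast; linear_combination h6
    have := Nat.cast_injective h7
    omega

end Pool.Agent.Helper97.DixA
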