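import Mathlib
import Pool.Agent.Helper97.DixA.Syz

set_option autoImplicit false

/-!
The linear maps which transform a potential into another one up to the determinant form a finite
set.
-/

namespace Pool.Agent.Helper97.DixA

open MvPolynomial Pool.Agent.Helper97.Dix

section sub

variable {B : Type*} [CommRing B]

/-- The linear substitution given by a matrix. -/
noncomputable def sb (M : Matrix (Fin 3) (Fin 3) B) :
    MvPolynomial (Fin 3) B →ₐ[B] MvPolynomial (Fin 3) B :=
  aeval fun c => ∑ b, C (M c b) * X b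

theorem sb_X (M : Matrix (Fin 3) (Fin 3) B) (c : Fin 3) : sb M (X c) = ∑ b, C (M c b) * X b :=
  aeval_X _ _

theorem sb_C (M : Matrix (Fin 3) (Fin 3) B) (r : B) : sb M (C r) = C r := (sb M).commutes r

theorem sb_one (F : MvPolynomial (Fin 3) B) : sb 1 F = F := by
  have : sb (1 : Matrix (Fin 3) (Fin 3) B) = AlgHom.id B _ := by
    apply MvPolynomial.algHom_ext
    intro c
    rw [sb_X, Finset.sum_eq_single c]
    · simp
    · intro b _ hb
      rw [Matrix.one_apply_ne (Ne.symm hb), C_0, zero_mul]
    · intro hcon; exact absurd (Finset.mem_univ c) hcon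
  rw [this]; rfl

theorem sb_sb (M₁ M₂ : Matrix (Fin 3) (Fin 3) B) (F : MvPolynomial (Fin 3) B) :
    sb M₂ (sb M₁ F) = sb (M₁ * M₂) F := by
  have : (sb M₂).comp (sb M₁) = sb (M₁ * M₂) := by
    apply MvPolynomial.algHom_ext
    intro c
    rw [AlgHom.comp_apply, sb_X, sb_X, map_sum]
    simp only [map_mul, sb_C, sb_X, Matrix.mul_apply, map_sum, Finset.mul_sum, Finset.sum_mul]
    rw [Finset.sum_comm]
    exact Finset.sum_congr rfl fun b _ => Finset.sum_congr rfl fun a _ => by rw [← mul_assoc]
  rw [← this]; rfl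

theorem sb_inj (M M' : Matrix (Fin 3) (Fin 3) B) (hM : M * M' = 1) {F : MvPolynomial (Fin 3) B}
    (hF : sb M F = 0) : F = 0 := by
  have h1 := sb_sb M M' F
  rw [hF, map_zero, hM, sb_one] at h1
  exact h1.symm

theorem map_sb {R : Type*} [CommRing R] (f : R →+* B) (M : Matrix (Fin 3) (Fin 3) R)
    (F : MvPolynomial (Fin 3) R) : map f (sb M F) = sb (M.map f) (map f F) := by
  have : (map f).comp (sb M : MvPolynomial (Fin 3) R →+* MvPolynomial (Fin 3) R) =
      ((sb (M.map f) : MvPolynomial (Fin 3) B →ₐ[B] MvPolynomial (Fin 3) B) :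
        MvPolynomial (Fin 3) B →+* MvPolynomial (Fin 3) B).comp (map f) := by
    apply MvPolynomial.ringHom_ext
    · intro r
      simp only [RingHom.comp_apply, RingHom.coe_coe]
      rw [sb_C, map_C, sb_C]
    · intro c
      simp only [RingHom.comp_apply, RingHom.coe_coe]
      rw [sb_X, map_X, sb_X, map_sum]
      exact Finset.sum_congr rfl fun b _ => by rw [map_mul, map_C, map_X]; rfl
  exact congrArg (fun g : MvPolynomial (Fin 3) R →+* MvPolynomial (Fin 3) B => g F) this

/-- First order expansion. -/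
theorem sb_taylor (H : Matrix (Fin 3) (Fin 3) B) (hH : ∀ a b c d, H a b * H c d = 0)
    (F : MvPolynomial (Fin 3) B) :
    sb (1 + H) F = F + ∑ c, (∑ b, C (H c b) * X b) * pderiv c F := by
  set l : Fin 3 → MvPolynomial (Fin 3) B := fun c => ∑ b, C (H c b) * X b with hl
  have hll : ∀ c d, l c * l d = 0 := by
    intro c d
    rw [hl]
    simp only [Finset.sum_mul_sum]
    refine Finset.sum_eq_zero fun a _ => Finset.sum_eq_zero fun b _ => ?_
    have : C (H c a) * X a * (C (H d b) * X b) =
        C (H c a * H d b) * (X a * X b : MvPolynomial (Fin 3) B) := by rw [C_mul]; ring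
    rw [this, hH, C_0, zero_mul]
  have hX : ∀ c, sb (1 + H) (X c) = X c + l c := by
    intro c
    rw [sb_X, hl]
    simp only [Matrix.add_apply, C_add, add_mul, Finset.sum_add_distrib]
    congr 1
    rw [Finset.sum_eq_single c]
    · simp
    · intro b _ hb
      rw [Matrix.one_apply_ne (Ne.symm hb), C_0, zero_mul]
    · intro hcon; exact absurd (Finset.mem_univ c) hcon
  induction F using MvPolynomial.induction_on with
  | C r => rw [sb_C]; simp
  | add p q hp hq =>
    rw [map_add, hp, hq]
    simp only [map_add, mul_add, Finset.sum_add_distrib]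
    ring
  | mul_X p a hp =>
    rw [map_mul, hp, hX]
    simp only [Derivation.leibniz, smul_eq_mul, mul_add, Finset.sum_add_distrib]
    have h1 : ∑ c, l c * (p * pderiv c (X a)) = l a * p := by
      rw [Finset.sum_eq_single a]
      · rw [pderiv_X_self]; ring
      · intro b _ hb
        rw [pderiv_X_of_ne (Ne.symm hb)]; ring
      · intro hcon; exact absurd (Finset.mem_univ a) hcon
    have h2 : ∑ c, l c * (X a * pderiv c p) = (∑ c, l c * pderiv c p) * X a := by
      rw [Finset.sum_mul]
      exact Finset.sum_congr rfl fun c _ => by ring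
    have h3 : (∑ c, l c * pderiv c p) * l a = 0 := by
      rw [Finset.sum_mul]
      refine Finset.sum_eq_zero fun c _ => ?_
      have : l c * pderiv c p * l a = (l c * l a) * pderiv c p := by ring
      rw [this, hll, zero_mul]
    rw [h1, h2]
    linear_combination h3

theorem det_one_add (H : Matrix (Fin 3) (Fin 3) B) (hH : ∀ a b c d, H a b * H c d = 0) :
    (1 + H).det = 1 + H.trace := by
  rw [Matrix.det_fin_three, Matrix.trace_fin_three]
  simp only [Matrix.add_apply, Matrix.one_apply, Fin.isValue, if_true]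
  simp only [show ((0 : Fin 3) = 1) = False by simp, show ((0 : Fin 3) = 2) = False by simp,
    show ((1 : Fin 3) = 0) = False by simp, show ((1 : Fin 3) = 2) = False by simp,
    show ((2 : Fin 3) = 0) = False by simp, show ((2 : Fin 3) = 1) = False by simp, if_false]
  linear_combination (1 + H 2 2) * hH 0 0 1 1 + hH 0 0 2 2 + hH 1 1 2 2 -
    (1 + H 0 0) * hH 1 2 2 1 - (1 + H 2 2) * hH 0 1 1 0 + H 2 0 * hH 0 1 1 2 +
    H 2 1 * hH 0 2 1 0 - (1 + H 1 1) * hH 0 2 2 0

end sub

variable {k : Type*} [Field k] {Ω Ω' : MvPolynomial (Fin 3) k} {N : ℕ}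

/-- Two infinitely near solutions are equal. -/
theorem rigid [CharZero k] (h : IsISPotential Ω N) (hN : 4 ≤ N) {B : Type*} [CommRing B]
    [Algebra k B] (M₁ M₂ : Matrix (Fin 3) (Fin 3) B) (I : Ideal B) (hI : I ^ 2 = ⊥)
    (hM : ∀ a b, M₂ a b - M₁ a b ∈ I) (t : B) (ht : t * M₁.det = 1)
    (h1 : sb M₁ (map (algebraMap k B) Ω) = C M₁.det * map (algebraMap k B) Ω')
    (h2 : sb M₂ (map (algebraMap k B) Ω) = C M₂.det * map (algebraMap k B) Ω') : M₂ = M₁ := by
  set M' : Matrix (Fin 3) (Fin 3) B := t • M₁.adjugate with hM'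
  have hr : M₁ * M' = 1 := by
    rw [hM', Matrix.mul_smul, Matrix.mul_adjugate, smul_smul, ht, one_smul]
  have hl : M' * M₁ = 1 := by
    rw [hM', Matrix.smul_mul, Matrix.adjugate_mul, smul_smul, ht, one_smul]
  set H : Matrix (Fin 3) (Fin 3) B := (M₂ - M₁) * M' with hHdef
  have hM2 : M₂ = (1 + H) * M₁ := by
    rw [hHdef, add_mul, one_mul, mul_assoc, hl, mul_one]; abel
  have hHI : ∀ a b, H a b ∈ I := by
    intro a b
    rw [hHdef, Matrix.mul_apply]
    exact Ideal.sum_mem _ fun c _ => Ideal.mul_mem_right _ _ (hM a c)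
  have hHH : ∀ a b c d, H a b * H c d = 0 := by
    intro a b c d
    have h3 : H a b * H c d ∈ I ^ 2 := by
      rw [pow_two]; exact Ideal.mul_mem_mul (hHI a b) (hHI c d)
    rw [hI] at h3
    exact (Submodule.mem_bot B).mp h3
  set O := map (algebraMap k B) Ω with hO
  set V : MvPolynomial (Fin 3) B := ∑ c, (∑ b, C (H c b) * X b) * pderiv c O with hV
  have h3 : sb M₁ (V - C H.trace * O) = 0 := by
    have h4 : sb M₂ O = sb M₁ (O + V) := by
      rw [← sb_taylor H hHH O, sb_sb, ← hM2]
    rw [h2, map_add, hM2, Matrix.det_mul, det_one_add H hHH, C_mul, mul_assoc, ← h1] at h4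
    rw [map_sub, map_mul, sb_C]
    rw [C_add, C_1] at h4
    linear_combination -h4
  have h4 : V - C H.trace * O = 0 := sb_inj M₁ M' hr h3
  have hH0 : H = 0 := by
    ext a b
    rw [Matrix.zero_apply, ← Module.forall_dual_apply_eq_zero_iff k]
    intro φ
    have h5 : H.map φ = 0 := by
      refine vf_trace h hN _ ?_
      ext m
      have h6 := congrArg (fun F => φ (coeff m F)) h4
      simp only [coeff_sub, map_sub, coeff_zero, map_zero] at h6
      have h7 : ∀ (r : B) (q : MvPolynomial (Fin 3) k),
          φ (coeff m (C r * map (algebraMap k B) q)) = φ r * coeff m q := by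
        intro r q
        rw [coeff_C_mul, coeff_map, mul_comm, ← Algebra.smul_def, map_smul, smul_eq_mul, mul_comm]
      have h8 : φ (coeff m V) = coeff m (vf (H.map φ) Ω) := by
        rw [hV, vf]
        simp only [Finset.sum_mul, coeff_sum, map_sum]
        refine Finset.sum_congr rfl fun c _ => Finset.sum_congr rfl fun b _ => ?_
        have h9 : C (H c b) * X b * pderiv c O = C (H c b) *
            map (algebraMap k B) (X b * pderiv c Ω) := by
          rw [hO, map_mul, map_X, pderiv_map]; ring
        rw [h9, h7, mul_assoc, coeff_C_mul]; rfl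
      have h10 : φ (coeff m (C H.trace * O)) = coeff m (C (H.map φ).trace * Ω) := by
        rw [hO, h7, coeff_C_mul]
        congr 1
        rw [Matrix.trace, Matrix.trace, map_sum]
        rfl
      rw [← h8, ← h10]
      exact sub_eq_zero.mp h6
    exact congrFun (congrFun h5 a) b
  rw [hM2, hH0, add_zero, one_mul]

section coord

variable (Ω Ω')

/-- The generic matrix. -/
noncomputable def gen : Matrix (Fin 3) (Fin 3) (MvPolynomial (Option (Fin 3 × Fin 3)) k) :=
  fun a b => X (some (a, b))

/-- The generic relation. -/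
noncomputable def rel : MvPolynomial (Fin 3) (MvPolynomial (Option (Fin 3 × Fin 3)) k) :=
  sb gen (map (algebraMap k _) Ω) - C (gen (k := k)).det * map (algebraMap k _) Ω'

/-- The ideal of the relations. -/
noncomputable def relI : Ideal (MvPolynomial (Option (Fin 3 × Fin 3)) k) :=
  Ideal.span (Set.range (fun m => coeff m (rel Ω Ω')) ∪ {X none * (gen (k := k)).det - 1})

/-- The set of the solutions. -/
def Sol : Set (Matrix (Fin 3) (Fin 3) k) := {M | M.det ≠ 0 ∧ sb M Ω = C M.det * Ω'}

variable {Ω Ω'}

theorem map_rel {B : Type*} [CommRing B] [Algebra k B]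
    (F : MvPolynomial (Option (Fin 3 × Fin 3)) k →ₐ[k] B) :
    map (F : MvPolynomial (Option (Fin 3 × Fin 3)) k →+* B) (rel Ω Ω') =
      sb (gen.map F) (map (algebraMap k B) Ω) - C (gen.map F).det * map (algebraMap k B) Ω' := by
  have hc : (F : MvPolynomial (Option (Fin 3 × Fin 3)) k →+* B).comp (algebraMap k _) =
      algebraMap k B := F.comp_algebraMap
  have hdet : F (gen (k := k)).det = (gen.map F).det := by
    rw [AlgHom.map_det]; rfl
  rw [rel, map_sub, map_mul, map_sb, map_map, map_map, hc, map_C]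
  congr 2
  rw [← hdet]; rfl

theorem point {B : Type*} [CommRing B] [Algebra k B]
    (f : (MvPolynomial (Option (Fin 3 × Fin 3)) k ⧸ relI Ω Ω') →ₐ[k] B) :
    sb (gen.map (f.comp (Ideal.Quotient.mkₐ k (relI Ω Ω')))) (map (algebraMap k B) Ω) =
      C (gen.map (f.comp (Ideal.Quotient.mkₐ k (relI Ω Ω')))).det * map (algebraMap k B) Ω' ∧
    (f.comp (Ideal.Quotient.mkₐ k (relI Ω Ω'))) (X none) *
      (gen.map (f.comp (Ideal.Quotient.mkₐ k (relI Ω Ω')))).det = 1 := by
  set F := f.comp (Ideal.Quotient.mkₐ k (relI Ω Ω')) with hF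
  have hz : ∀ x ∈ relI Ω Ω', F x = 0 := by
    intro x hx
    rw [hF, AlgHom.comp_apply]
    have : Ideal.Quotient.mkₐ k (relI Ω Ω') x = 0 := Ideal.Quotient.eq_zero_iff_mem.mpr hx
    rw [this, map_zero]
  constructor
  · rw [← sub_eq_zero, ← map_rel]
    ext m
    rw [coeff_map, coeff_zero]
    exact hz _ (Ideal.subset_span (Or.inl ⟨m, rfl⟩))
  · have h1 := hz _ (Ideal.subset_span (Or.inr rfl))
    rw [map_sub, map_mul, map_one, AlgHom.map_det] at h1
    exact sub_eq_zero.mp h1

theorem unramified [CharZero k] (h : IsISPotential Ω N) (hN : 4 ≤ N) :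
    Algebra.FormallyUnramified k (MvPolynomial (Option (Fin 3 × Fin 3)) k ⧸ relI Ω Ω') := by
  rw [Algebra.FormallyUnramified.iff_comp_injective]
  intro B _ _ I hI f g hfg
  have hfg' : ∀ x, f x - g x ∈ I := by
    intro x
    have h1 := congrArg (fun e : _ →ₐ[k] B ⧸ I => e x) hfg
    simp only [AlgHom.comp_apply] at h1
    exact (Ideal.Quotient.eq).mp h1
  obtain ⟨f1, f2⟩ := point f
  obtain ⟨g1, g2⟩ := point g
  set F := f.comp (Ideal.Quotient.mkₐ k (relI Ω Ω')) with hF
  set G := g.comp (Ideal.Quotient.mkₐ k (relI Ω Ω')) with hG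
  have hM : gen.map F = gen.map G := by
    refine rigid h hN (gen.map G) (gen.map F) I hI ?_ _ g2 g1 f1
    intro a b
    exact hfg' _
  have hFG : F = G := by
    apply MvPolynomial.algHom_ext
    rintro (_ | ⟨a, b⟩)
    · rw [hM] at f2
      calc F (X none) = F (X none) * (G (X none) * (gen.map G).det) := by rw [g2, mul_one]
        _ = (F (X none) * (gen.map G).det) * G (X none) := by ring
        _ = G (X none) := by rw [f2, one_mul]
    · exact congrFun (congrFun hM a) b
  apply Ideal.Quotient.algHom_ext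
  exact hFG

theorem finite_sol [CharZero k] (h : IsISPotential Ω N) (hN : 4 ≤ N) : (Sol Ω Ω').Finite := by
  have h1 := unramified (Ω' := Ω') h hN
  have h2 : Module.Finite k (MvPolynomial (Option (Fin 3 × Fin 3)) k ⧸ relI Ω Ω') :=
    Algebra.FormallyUnramified.finite_of_free _ _
  have h3 : Finite ((MvPolynomial (Option (Fin 3 × Fin 3)) k ⧸ relI Ω Ω') →ₐ[k] k) :=
    inferInstance
  have hk : ∀ F : MvPolynomial (Fin 3) k, map (algebraMap k k) F = F := by
    intro F
    rw [Algebra.algebraMap_self]
    exact MvPolynomial.map_id _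
  have hex : ∀ M : Sol Ω Ω', ∃ f : (MvPolynomial (Option (Fin 3 × Fin 3)) k ⧸ relI Ω Ω') →ₐ[k] k,
      gen.map (f.comp (Ideal.Quotient.mkₐ k (relI Ω Ω'))) = M.1 := by
    rintro ⟨M, hM, hM'⟩
    set e : MvPolynomial (Option (Fin 3 × Fin 3)) k →ₐ[k] k :=
      aeval (fun o => o.elim (M.det)⁻¹ (fun p => M p.1 p.2)) with he
    have heM : gen.map e = M := by
      ext a b
      rw [Matrix.map_apply, gen, he, aeval_X]
      rfl
    have hle : ∀ x ∈ relI Ω Ω', e x = 0 := by
      have : relI Ω Ω' ≤ RingHom.ker e := by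
        rw [relI, Ideal.span_le]
        rintro x (⟨m, rfl⟩ | hx)
        · change e (coeff m (rel Ω Ω')) = 0
          have h4 := map_rel (Ω := Ω) (Ω' := Ω') e
          rw [heM, hk, hk, hM', sub_self] at h4
          have h5 := congrArg (coeff m) h4
          rw [coeff_map, coeff_zero] at h5
          exact h5
        · rw [Set.mem_singleton_iff] at hx
          rw [hx]
          change e (X none * (gen (k := k)).det - 1) = 0
          have hdet : e (gen (k := k)).det = M.det := by
            rw [AlgHom.map_det]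
            exact congrArg Matrix.det heM
          rw [map_sub, map_mul, hdet, map_one, he, aeval_X]
          change (M.det)⁻¹ * M.det - 1 = 0
          rw [inv_mul_cancel₀ hM, sub_self]
      exact this
    refine ⟨Ideal.Quotient.liftₐ (relI Ω Ω') e hle, ?_⟩
    exact heM
  choose φ hφ using hex
  have hinj : Function.Injective φ := by
    intro M M' hMM
    apply Subtype.ext
    rw [← hφ M, ← hφ M', hMM]
  have : Finite (Sol Ω Ω') := Finite.of_injective φ hinj
  exact Set.toFinite _

end coord

end Pool.Agent.Helper97.DixA
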