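import Mathlib
import Pool.Agent.Helper97.Dix.Main
import Pool.Agent.Helper97.DixA.Unr
import Pool.Agent.Helper97.DixA.Lin

set_option autoImplicit false

/-!
Poisson automorphisms permute the blocks and are linear.
-/

namespace Pool.Agent.Helper97.DixA

open MvPolynomial Pool.Agent.Helper97.Dix

section poly

variable {k : Type*} [Field k] {σ : Type*}

theorem eq_zero_of_top {F : MvPolynomial σ k} (h : homogeneousComponent F.totalDegree F = 0) :
    F = 0 := by
  have h1 : DL (F.totalDegree + 1) F := dl_succ_iff.mpr le_rfl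
  have h2 := h1.sub_top
  rw [h, sub_zero] at h2
  rcases hn : F.totalDegree with _ | n
  · rw [hn, dl_zero_iff] at h2
    exact h2
  · rw [hn, dl_succ_iff] at h2
    omega

/-- The coefficient of a variable. -/
noncomputable def lc (F : MvPolynomial σ k) (q : σ) : k := coeff (Finsupp.single q 1) F

theorem lin_form [Fintype σ] {F : MvPolynomial σ k} (hF : F.totalDegree ≤ 1) :
    F = C (coeff 0 F) + ∑ q, C (lc F q) * X q := by
  classical
  ext m
  rw [coeff_add, coeff_sum]
  simp only [coeff_C_mul, coeff_C, coeff_X, mul_ite, mul_one, mul_zero]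
  by_cases hm : m.degree ≤ 1
  · rcases Nat.le_one_iff_eq_zero_or_eq_one.mp hm with h0 | h1
    · have : m = 0 := (Finsupp.degree_eq_zero_iff m).mp h0
      subst this
      rw [if_pos rfl, Finset.sum_eq_zero, add_zero]
      intro q _
      rw [if_neg]
      intro hcon
      have := congrArg Finsupp.degree hcon
      simp at this
    · obtain ⟨q, hq⟩ : ∃ q, m = Finsupp.single q 1 := by
        have hne : m ≠ 0 := by rintro rfl; simp at h1
        obtain ⟨q, hq⟩ := Finsupp.support_nonempty_iff.mpr hne
        refine ⟨q, ?_⟩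
        have hq1 : 1 ≤ m q := Nat.one_le_iff_ne_zero.mpr (Finsupp.mem_support_iff.mp hq)
        have hle : Finsupp.single q 1 ≤ m := by
          rw [Finsupp.single_le_iff]; exact hq1
        have h2 : (m - Finsupp.single q 1).degree = 0 := by
          have h3 := congrArg Finsupp.degree (tsub_add_cancel_of_le hle)
          rw [map_add, Finsupp.degree_single, h1] at h3
          omega
        have h4 := (Finsupp.degree_eq_zero_iff _).mp h2
        have h5 := tsub_add_cancel_of_le hle
        rw [h4, zero_add] at h5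
        exact h5.symm
      subst hq
      rw [if_neg, zero_add, Finset.sum_eq_single q]
      · rw [if_pos rfl]; rfl
      · intro q' _ hq'
        rw [if_neg]
        intro hcon
        exact hq' (Finsupp.single_left_injective one_ne_zero hcon)
      · intro hcon; exact absurd (Finset.mem_univ q) hcon
      · intro hcon
        have := congrArg Finsupp.degree hcon
        simp at this
  · have h0 : coeff m F = 0 := by
      apply coeff_eq_zero_of_totalDegree_lt
      have : m.degree = ∑ i ∈ m.support, m i := rfl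
      omega
    rw [h0, if_neg, zero_add, Finset.sum_eq_zero]
    · intro q _
      rw [if_neg]
      intro hcon
      apply hm
      rw [← hcon, Finsupp.degree_single]
    · intro hcon
      apply hm
      rw [← hcon]; simp

theorem pderiv_lin [Fintype σ] {F : MvPolynomial σ k} (hF : F.totalDegree ≤ 1) (q : σ) :
    pderiv q F = C (lc F q) := by
  conv_lhs => rw [lin_form hF]
  rw [map_add, pderiv_C, zero_add, map_sum, Finset.sum_eq_single q]
  · rw [pderiv_C_mul, pderiv_X_self, mul_one]
  · intro b _ hb
    rw [pderiv_C_mul, pderiv_X_of_ne hb, mul_zero]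
  · intro hcon; exact absurd (Finset.mem_univ q) hcon

theorem aeval_smul_homog {F : MvPolynomial σ k} {n : ℕ} (hF : F.IsHomogeneous n) (t : k)
    (w : σ → k) : aeval (fun i => t * w i) F = t ^ n * aeval w F := by
  rw [aeval_def, aeval_def, eval₂_eq, eval₂_eq, Finset.mul_sum]
  refine Finset.sum_congr rfl fun d hd => ?_
  have h1 : d.degree = n := by
    have := hF (mem_support_iff.mp hd)
    rw [Finsupp.degree_eq_weight_one]
    exact this
  have h2 : ∏ i ∈ d.support, (t * w i) ^ d i = t ^ n * ∏ i ∈ d.support, w i ^ d i := by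
    simp only [mul_pow]
    rw [Finset.prod_mul_distrib, Finset.prod_pow_eq_pow_sum, ← h1]
    rfl
  rw [h2]; ring

theorem aeval_aeval {τ : Type*} (m : σ → MvPolynomial τ k) (w : τ → k) (F : MvPolynomial σ k) :
    aeval w (aeval m F) = aeval (fun a => aeval w (m a)) F := by
  have : (aeval w : MvPolynomial τ k →ₐ[k] k).comp (aeval m) =
      aeval (fun a => aeval w (m a)) := by
    apply MvPolynomial.algHom_ext
    intro a
    simp
  exact congrArg (fun g : MvPolynomial σ k →ₐ[k] k => g F) this

theorem totalDegree_aeval_le {τ : Type*} (m : σ → MvPolynomial τ k)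
    (hm : ∀ a, (m a).totalDegree ≤ 1) (F : MvPolynomial σ k) {n : ℕ} (hF : F.totalDegree ≤ n) :
    (aeval m F).totalDegree ≤ n := by
  have h1 := aeval_mem_W (AlgHom.id k (MvPolynomial τ k)) m (m := 1) (n := n)
    (fun p => (mem_W _).mpr ⟨m p, hm p, rfl⟩) F hF
  obtain ⟨G, hG, hG'⟩ := (mem_W _).mp h1
  rw [Nat.mul_one] at hG
  rw [← hG']
  exact hG

end poly

section cross

variable {k : Type*} [Field k]

/-- The vector product. -/
def cr (v w : Fin 3 → k) : Fin 3 → k :=
  ![v 1 * w 2 - v 2 * w 1, v 2 * w 0 - v 0 * w 2, v 0 * w 1 - v 1 * w 0]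

theorem par_of_cr {v w : Fin 3 → k} (h : cr v w = 0) : Par v w := by
  have h0 : v 1 * w 2 - v 2 * w 1 = 0 := congrFun h 0
  have h1 : v 2 * w 0 - v 0 * w 2 = 0 := congrFun h 1
  have h2 : v 0 * w 1 - v 1 * w 0 = 0 := congrFun h 2
  intro a b
  fin_cases a <;> fin_cases b <;> simp only [Fin.zero_eta, Fin.mk_one, Fin.reduceFinMk] <;>
    first
    | rfl
    | linear_combination h0
    | linear_combination h1
    | linear_combination h2
    | linear_combination -h0
    | linear_combination -h1
    | linear_combination -h2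

theorem cr_adj (M : Matrix (Fin 3) (Fin 3) k) (c d : Fin 3) :
    cr (M (c + 1)) (M (c + 2)) d = M.adjugate d c := by
  rw [Matrix.adjugate_fin_three]
  fin_cases c <;> fin_cases d <;> simp [cr] <;> ring

end cross

section main

variable {k : Type*} [Field k] {ι : Type*} [DecidableEq ι] [Fintype ι]
  {Ω : ι → MvPolynomial (Fin 3) k} {N : ι → ℕ} {ξ : ι → k}
  {T : Type*} [CommRing T] [Algebra k T] {π : MvPolynomial (ι × Fin 3) k →ₐ[k] T}

omit [DecidableEq ι] in
theorem KI_low {m : ℕ} (hΩ : ∀ i, (Ω i).IsHomogeneous (N i)) (hm : ∀ i, m < N i)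
    {x : MvPolynomial (ι × Fin 3) k} (hx : x ∈ KI Ω Finset.univ) :
    homogeneousComponent m x = 0 := by
  classical
  rw [KI, Finset.coe_univ, Set.image_univ, Ideal.mem_span_range_iff_exists_fun] at hx
  obtain ⟨c, rfl⟩ := hx
  rw [map_sum]
  exact Finset.sum_eq_zero fun i _ => hc_mul_lt (blk_homog (hΩ i) i) (hm i)

theorem small_ker (S : Setup Ω N ξ π) {F : MvPolynomial (ι × Fin 3) k} (hF : F.totalDegree ≤ 3)
    (h0 : π F = 0) : F = 0 := by
  apply eq_zero_of_top
  have h1 := top_mem S.pot S.one_le ξ Finset.univ F.totalDegree F ((S.ker F).mp h0)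
    (dl_succ_iff.mpr le_rfl)
  have h2 := KI_low (N := N) (m := F.totalDegree) (fun i => (S.pot i).homogeneous)
    (fun i => by have := S.four_le i; omega) h1
  rwa [homogeneousComponent_of_mem (homogeneousComponent_isHomogeneous _ F), if_pos rfl] at h2

theorem blk_ker (S : Setup Ω N ξ π) {j : ι} {f : MvPolynomial (Fin 3) k}
    (hf : f.totalDegree < N j) (h0 : π (blk j f) = 0) : f = 0 := by
  apply eq_zero_of_top
  set n := f.totalDegree with hn
  have h1 := top_mem S.pot S.one_le ξ Finset.univ n (blk j f) ((S.ker _).mp h0)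
    (dl_succ_iff.mpr (totalDegree_rename_le _ _))
  have h2 : homogeneousComponent n (blk j f) = blk j (homogeneousComponent n f) := by
    have h3 : DL n (f - homogeneousComponent n f) :=
      (dl_succ_iff.mpr (le_of_eq hn.symm) : DL (n + 1) f).sub_top
    have h4 : homogeneousComponent n (blk j (f - homogeneousComponent n f)) = 0 := by
      rcases n with _ | m
      · rw [dl_zero_iff] at h3
        rw [h3, map_zero, map_zero]
      · rw [dl_succ_iff] at h3
        exact homogeneousComponent_eq_zero _ _
          (lt_of_le_of_lt ((totalDegree_rename_le _ _).trans h3) (Nat.lt_succ_self _))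
    rw [map_sub, map_sub, homogeneousComponent_of_mem
      (blk_homog (homogeneousComponent_isHomogeneous n f) j), if_pos rfl] at h4
    exact sub_eq_zero.mp h4
  rw [h2] at h1
  exact blk_mem_KI_of_lt S.pot S.one_le (homogeneousComponent_isHomogeneous n f) hf h1

/-- The projection to one block. -/
noncomputable def rho (j : ι) : MvPolynomial (ι × Fin 3) k →ₐ[k] MvPolynomial (Fin 3) k :=
  aeval fun p => if p.1 = j then X p.2 else 0

omit [Fintype ι] in
theorem rho_blk (j : ι) (f : MvPolynomial (Fin 3) k) : rho j (blk j f) = f := by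
  have : (rho j).comp (blk j) = AlgHom.id k (MvPolynomial (Fin 3) k) := by
    apply MvPolynomial.algHom_ext
    intro c
    rw [AlgHom.comp_apply, blk_X, rho, aeval_X, if_pos rfl]
    rfl
  exact congrArg (fun g : MvPolynomial (Fin 3) k →ₐ[k] MvPolynomial (Fin 3) k => g f) this

omit [Fintype ι] in
theorem rho_blk_ne {i j : ι} (h : i ≠ j) (f : MvPolynomial (Fin 3) k) :
    rho j (blk i f) = C (constantCoeff f) := by
  have : (rho j).comp (blk i) =
      (Algebra.ofId k (MvPolynomial (Fin 3) k)).comp (aeval (fun _ => (0 : k))) := by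
    apply MvPolynomial.algHom_ext
    intro c
    rw [AlgHom.comp_apply, blk_X, rho, aeval_X, if_neg h, AlgHom.comp_apply, aeval_X, map_zero]
  have h2 := congrArg (fun g : MvPolynomial (Fin 3) k →ₐ[k] MvPolynomial (Fin 3) k => g f) this
  simp only [AlgHom.comp_apply] at h2
  rw [h2]
  have h3 : aeval (fun _ => (0 : k)) f = constantCoeff f := by
    rw [show (fun _ : Fin 3 => (0 : k)) = 0 from rfl, aeval_zero]
    rfl
  rw [h3]; rfl

theorem sum_ker (S : Setup Ω N ξ π) (g : ι → MvPolynomial (Fin 3) k)
    (hg : ∀ j, (g j).IsHomogeneous (N j - 1)) (h0 : π (∑ j, blk j (g j)) = 0) (j : ι) :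
    g j = 0 := by
  classical
  by_contra hne
  set J := Finset.univ.filter (fun j => g j ≠ 0) with hJ
  have hJne : J.Nonempty := ⟨j, by simp [hJ, hne]⟩
  obtain ⟨j0, hj0, hmax⟩ := Finset.exists_max_image J (fun j => N j - 1) hJne
  have hj0' : g j0 ≠ 0 := (Finset.mem_filter.mp hj0).2
  set n := N j0 - 1 with hn
  have hle : ∀ i, g i ≠ 0 → N i - 1 ≤ n := fun i hi =>
    hmax i (Finset.mem_filter.mpr ⟨Finset.mem_univ i, hi⟩)
  have hcomp : ∀ i, ∀ m, homogeneousComponent m (blk i (g i)) =
      if N i - 1 = m then blk i (g i) else 0 := by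
    intro i m
    rw [homogeneousComponent_of_mem (blk_homog (hg i) i)]
    by_cases h : m = N i - 1
    · rw [if_pos h, if_pos h.symm]
    · rw [if_neg h, if_neg (Ne.symm h)]
  have hDL : DL (n + 1) (∑ i, blk i (g i)) := by
    intro m hm
    rw [map_sum]
    refine Finset.sum_eq_zero fun i _ => ?_
    by_cases hi : g i = 0
    · rw [hi, map_zero, map_zero]
    · rw [hcomp, if_neg]
      have := hle i hi
      omega
  have h1 := top_mem S.pot S.one_le ξ Finset.univ n _ ((S.ker _).mp h0) hDL
  have h2 : rho j0 (homogeneousComponent n (∑ i, blk i (g i))) = g j0 := by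
    rw [map_sum, map_sum, Finset.sum_eq_single j0]
    · rw [hcomp, if_pos rfl, rho_blk]
    · intro i _ hi
      rw [hcomp]
      split_ifs
      · rw [rho_blk_ne hi, (hg i).coeff_eq_zero (by
          have := S.four_le i
          simp; omega) |> (fun h => (show constantCoeff (g i) = 0 from h)), C_0]
      · rw [map_zero]
    · intro hcon; exact absurd (Finset.mem_univ j0) hcon
  have h3 : KI Ω Finset.univ ≤ (Ideal.span {Ω j0}).comap (rho j0) := by
    rw [KI, Ideal.span_le]
    rintro _ ⟨i, -, rfl⟩
    change rho j0 (blk i (Ω i)) ∈ Ideal.span {Ω j0}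
    by_cases hi : i = j0
    · subst hi
      rw [rho_blk]
      exact Ideal.subset_span rfl
    · have hz : constantCoeff (Ω i) = 0 := (S.pot i).homogeneous.coeff_eq_zero (by
        have := S.four_le i
        simp; omega)
      rw [rho_blk_ne hi, hz, C_0]
      exact Ideal.zero_mem _
  have h4 := h3 h1
  rw [Ideal.mem_comap, h2, Ideal.mem_span_singleton'] at h4
  obtain ⟨q, hq⟩ := h4
  have h5 := hc_mul_lt (f := q) (S.pot j0).homogeneous (n := n) (by
    have := S.four_le j0
    omega)
  rw [hq, homogeneousComponent_of_mem (hg j0), if_pos rfl] at h5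
  exact hj0' h5

/-- The bracket of two polynomials of degree at most one. -/
theorem brB_lin (j : ι) {F G : MvPolynomial (ι × Fin 3) k} (hF : F.totalDegree ≤ 1)
    (hG : G.totalDegree ≤ 1) : brB Ω j F G = blk j (∑ d,
      C (cr (fun b => lc F (j, b)) (fun b => lc G (j, b)) d) * pderiv d (Ω j)) := by
  have hC : ∀ r : k, blk j (C r) = (C r : MvPolynomial (ι × Fin 3) k) := fun r =>
    (blk j).commutes r
  rw [brB]
  simp only [pderiv_lin hF, pderiv_lin hG]
  rw [map_sum, Fin.sum_univ_three]
  simp only [map_mul, cr, Matrix.cons_val_zero, Matrix.cons_val_one, Matrix.cons_val,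
    map_sub, hC]
  ring

end main

end Pool.Agent.Helper97.DixA
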