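import Mathlib
import Pool.Agent.Helper97.Dix.Tens
import Pool.Agent.Helper97.DixA.Blk

set_option autoImplicit false

/-!
The Poisson automorphism group of a tensor product of potential quotients is finite.
-/

namespace Pool.Agent.Helper97.DixA

open MvPolynomial Pool.Agent.Helper97.Dix

section main

variable {k : Type*} [Field k] {ι : Type*} [DecidableEq ι] [Fintype ι]
  {Ω : ι → MvPolynomial (Fin 3) k} {N : ι → ℕ} {ξ : ι → k}
  {T : Type*} [CommRing T] [Algebra k T] {π : MvPolynomial (ι × Fin 3) k →ₐ[k] T}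

omit [DecidableEq ι] [Fintype ι] in
theorem lc_add {σ : Type*} (F G : MvPolynomial σ k) (r : σ) :
    lc (F + G) r = lc F r + lc G r := coeff_add _ _ _

omit [DecidableEq ι] [Fintype ι] in
theorem lc_C {σ : Type*} (c : k) (r : σ) : lc (C c : MvPolynomial σ k) r = 0 := by
  classical
  rw [lc, coeff_C, if_neg]
  intro hcon
  have := congrArg Finsupp.degree hcon
  simp at this

omit [Fintype ι] in
theorem lc_X {σ : Type*} [DecidableEq σ] (p r : σ) :
    lc (X p : MvPolynomial σ k) r = if p = r then 1 else 0 := by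
  rw [lc, coeff_X]
  by_cases h : p = r
  · subst h; simp
  · rw [if_neg, if_neg h]
    intro hcon
    exact h (Finsupp.single_left_injective one_ne_zero hcon)

/-- The key identity: the polynomial part of the argument for one block. -/
theorem one_block_sol [CharZero k] {Ω₁ Ω₂ : MvPolynomial (Fin 3) k} {n : ℕ}
    (h1 : IsISPotential Ω₁ n) (h2 : IsISPotential Ω₂ n) (hn : 2 ≤ n)
    (M : Matrix (Fin 3) (Fin 3) k) (hM : M.det ≠ 0) (β : Fin 3 → k)
    (hG : ∀ c, ∑ d, C (M.adjugate d c) * pderiv d Ω₂ =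
      aeval (fun a => C (β a) + ∑ b, C (M a b) * X b) (pderiv c Ω₁)) :
    β = 0 ∧ M ∈ Sol Ω₁ Ω₂ := by
  have hGh : ∀ c, (∑ d, C (M.adjugate d c) * pderiv d Ω₂).IsHomogeneous (n - 1) := fun c =>
    IsHomogeneous.sum _ _ _ fun d _ => (pderiv_homog h2.homogeneous d).C_mul _
  have hβ : β = 0 := by
    set x0 : Fin 3 → k := M⁻¹.mulVec β with hx0
    have hMx : M.mulVec x0 = β := by
      rw [hx0, Matrix.mulVec_mulVec, Matrix.mul_nonsing_inv _ (isUnit_iff_ne_zero.mpr hM),
        Matrix.one_mulVec]
    have hev : ∀ (t : k) (c : Fin 3), aeval (fun i => t * x0 i)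
        (aeval (fun a => C (β a) + ∑ b, C (M a b) * X b) (pderiv c Ω₁)) =
        (1 + t) ^ (n - 1) * aeval β (pderiv c Ω₁) := by
      intro t c
      rw [aeval_aeval, ← aeval_smul_homog (pderiv_homog h1.homogeneous c)]
      congr 2
      funext a
      rw [map_add, aeval_C, map_sum]
      simp only [map_mul, aeval_C, aeval_X]
      have h3 := congrFun hMx a
      rw [Matrix.mulVec, dotProduct] at h3
      have h4 : ∑ x, (algebraMap k k) (M a x) * (t * x0 x) = t * β a := by
        rw [← h3, Finset.mul_sum]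
        exact Finset.sum_congr rfl fun b _ => by
          rw [Algebra.algebraMap_self_apply]; ring
      rw [h4, Algebra.algebraMap_self_apply]; ring
    apply grad_zero h1 β
    intro c
    have e1 := hev (-1) c
    have e2 := hev 1 c
    rw [← hG, aeval_smul_homog (hGh c)] at e1 e2
    have hn1 : n - 1 ≠ 0 := by omega
    have e3 : aeval x0 (∑ d, C (M.adjugate d c) * pderiv d Ω₂) = 0 := by
      have : (1 + (-1) : k) = 0 := by ring
      rw [this, zero_pow hn1, zero_mul] at e1
      rcases mul_eq_zero.mp e1 with h3 | h3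
      · exact absurd h3 (pow_ne_zero _ (by norm_num))
      · exact h3
    rw [e3, mul_zero] at e2
    have h2' : (1 + 1 : k) ^ (n - 1) ≠ 0 := pow_ne_zero _ (by norm_num)
    rcases mul_eq_zero.mp e2.symm with h3 | h3
    · exact absurd h3 h2'
    · exact h3
  refine ⟨hβ, hM, ?_⟩
  have hG' : ∀ c, sb M (pderiv c Ω₁) = ∑ d, C (M.adjugate d c) * pderiv d Ω₂ := by
    intro c
    rw [hG c, hβ, sb]
    congr 2
    funext a
    rw [Pi.zero_apply, C_0, zero_add]
  have e1 := congrArg (sb M) h1.homogeneous.sum_X_mul_pderiv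
  rw [map_sum, map_nsmul] at e1
  have e2 : ∑ c, sb M (X c * pderiv c Ω₁) = C M.det * ∑ b, X b * pderiv b Ω₂ := by
    have h3 : ∀ c, sb M (X c * pderiv c Ω₁) =
        ∑ b, ∑ d, C (M.adjugate d c * M c b) * (X b * pderiv d Ω₂) := by
      intro c
      rw [map_mul, sb_X, hG', Finset.sum_mul_sum]
      exact Finset.sum_congr rfl fun b _ => Finset.sum_congr rfl fun d _ => by
        rw [C_mul]; ring
    simp only [h3]
    rw [Finset.sum_comm, Finset.mul_sum]
    refine Finset.sum_congr rfl fun b _ => ?_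
    rw [Finset.sum_comm]
    have h4 : ∀ d, ∑ c, C (M.adjugate d c * M c b) * (X b * pderiv d Ω₂) =
        C ((M.adjugate * M) d b) * (X b * pderiv d Ω₂) := by
      intro d
      rw [Matrix.mul_apply, map_sum, Finset.sum_mul]
    simp only [h4, Matrix.adjugate_mul, Matrix.smul_apply, smul_eq_mul]
    rw [Finset.sum_eq_single b]
    · rw [Matrix.one_apply_eq, mul_one]
    · intro d _ hd
      rw [Matrix.one_apply_ne hd, mul_zero, C_0, zero_mul]
    · intro hcon; exact absurd (Finset.mem_univ b) hcon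
  rw [e2, h2.homogeneous.sum_X_mul_pderiv, nsmul_eq_mul, nsmul_eq_mul] at e1
  have hn0 : ((n : ℕ) : MvPolynomial (Fin 3) k) ≠ 0 := Nat.cast_ne_zero.mpr (by omega)
  apply mul_left_cancel₀ hn0
  rw [← e1]; ring

/-- The form of the Poisson automorphisms: a permutation of the blocks together with linear
substitutions. -/
theorem aut_form [CharZero k] (S : Setup Ω N ξ π) (br : T → T → T)
    (hbr : ∀ F G, br (π F) (π G) = π (brS Ω F G)) (φ : T ≃ₐ[k] T)
    (hφ : ∀ a b, φ (br a b) = br (φ a) (φ b)) :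
    ∃ (s : Equiv.Perm ι) (M : ι → Matrix (Fin 3) (Fin 3) k),
      (∀ i, M i ∈ Sol (Ω i) (Ω (s i))) ∧
      ∀ i a, φ (π (X (i, a))) = π (∑ b, C (M i a b) * X (s i, b)) := by
  have h1 : ∀ p, ∃ F : MvPolynomial (ι × Fin 3) k, F.totalDegree ≤ 1 ∧ π F = φ (π (X p)) :=
    fun p => (mem_W π).mp
      (S.degree_one br hbr (φ : T →ₐ[k] T) (fun a b => hφ a b) φ.injective p)
  have hφs : ∀ a b, φ.symm (br a b) = br (φ.symm a) (φ.symm b) := by
    intro a b
    apply φ.injective
    rw [hφ]
    simp
  have h2 : ∀ p, ∃ F : MvPolynomial (ι × Fin 3) k, F.totalDegree ≤ 1 ∧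
      π F = φ.symm (π (X p)) :=
    fun p => (mem_W π).mp
      (S.degree_one br hbr (φ.symm : T →ₐ[k] T) (fun a b => hφs a b) φ.symm.injective p)
  choose F hF hF' using h1
  choose V hV hV' using h2
  set L : Matrix (ι × Fin 3) (ι × Fin 3) k := fun p q => lc (F p) q with hL
  set L' : Matrix (ι × Fin 3) (ι × Fin 3) k := fun p q => lc (V p) q with hL'
  have hLL : L' * L = 1 := by
    ext p r
    have e1 : φ (π (V p)) = π (X p) := by rw [hV', AlgEquiv.apply_symm_apply]
    have e2 : φ (π (V p)) = π (C (coeff 0 (V p)) + ∑ q, C (L' p q) * F q) := by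
      have hC : ∀ c : k, π (C c) = algebraMap k T c := fun c => π.commutes c
      have hφC : ∀ c : k, φ (algebraMap k T c) = algebraMap k T c := fun c => φ.commutes c
      calc φ (π (V p)) = φ (π (C (coeff 0 (V p)) + ∑ q, C (lc (V p) q) * X q)) := by
            rw [← lin_form (hV p)]
        _ = π (C (coeff 0 (V p)) + ∑ q, C (L' p q) * F q) := by
            simp only [map_add, map_sum, map_mul, hC, hF', hφC]
            rfl
    have e3 : C (coeff 0 (V p)) + ∑ q, C (L' p q) * F q - X p = 0 := by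
      apply small_ker S
      · refine (totalDegree_sub _ _).trans (max_le ?_ (by rw [totalDegree_X]; omega))
        refine (totalDegree_add _ _).trans (max_le (by rw [totalDegree_C]; omega) ?_)
        refine totalDegree_finsetSum_le fun q _ => ?_
        refine (totalDegree_mul _ _).trans ?_
        rw [totalDegree_C]
        have := hF q
        omega
      · rw [map_sub, ← e2, e1, sub_self]
    have e4 := congrArg (fun G => lc G r) (sub_eq_zero.mp e3)
    simp only [lc_add, lc_C, lc_X, zero_add] at e4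
    rw [Matrix.mul_apply, Matrix.one_apply, ← e4, lc, coeff_sum]
    exact Finset.sum_congr rfl fun q _ => by rw [coeff_C_mul]; rfl
  have hpar : ∀ (j : ι) (p q : ι × Fin 3), p.1 ≠ q.1 →
      Par (fun b => L p (j, b)) (fun b => L q (j, b)) := by
    intro j p q hpq
    have e1 : br (π (F p)) (π (F q)) = 0 := by
      rw [hF', hF', ← hφ, hbr]
      obtain ⟨i, a⟩ := p
      obtain ⟨i', a'⟩ := q
      rw [brS_XX_ne Ω hpq, map_zero, map_zero]
    rw [hbr, brS] at e1
    simp only [brB_lin _ (hF p) (hF q)] at e1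
    have e2 := sum_ker S _ (fun j' => IsHomogeneous.sum _ _ _ fun d _ =>
      (pderiv_homog (S.pot j').homogeneous d).C_mul _) e1 j
    have e3 := lin_indep (S.pot j) (by have := S.four_le j; omega) _ e2
    exact par_of_cr e3
  obtain ⟨s, hs0, hsdet⟩ := block_perm L L' hLL hpar
  set M : ι → Matrix (Fin 3) (Fin 3) k := fun i => Matrix.of fun a b => L (i, a) (s i, b)
    with hM
  set m : ι → Fin 3 → MvPolynomial (Fin 3) k := fun i a =>
    C (coeff 0 (F (i, a))) + ∑ b, C (M i a b) * X b with hm
  have hFm : ∀ i a, F (i, a) = blk (s i) (m i a) := by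
    intro i a
    have hC : ∀ r : k, blk (s i) (C r) = (C r : MvPolynomial (ι × Fin 3) k) := fun r =>
      (blk (s i)).commutes r
    refine (lin_form (hF (i, a))).trans ?_
    rw [hm]
    simp only [map_add, map_sum, map_mul, blk_X]
    simp only [hC]
    congr 1
    rw [Fintype.sum_prod_type, Finset.sum_eq_single (s i)]
    · rfl
    · intro j _ hj
      refine Finset.sum_eq_zero fun b _ => ?_
      have : lc (F (i, a)) (j, b) = 0 := hs0 i a j b hj
      rw [this, C_0, zero_mul]
    · intro hcon; exact absurd (Finset.mem_univ (s i)) hcon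
  have hφblk : ∀ i f, φ (π (blk i f)) = π (blk (s i) (aeval (m i) f)) := by
    intro i f
    have : ((φ : T →ₐ[k] T).comp π).comp (blk i) =
        (π.comp (blk (s i))).comp (aeval (m i)) := by
      apply MvPolynomial.algHom_ext
      intro c
      simp only [AlgHom.comp_apply, blk_X, aeval_X]
      rw [← hFm, hF']
      rfl
    exact congrArg (fun g : MvPolynomial (Fin 3) k →ₐ[k] T => g f) this
  set G : ι → Fin 3 → MvPolynomial (Fin 3) k := fun i c =>
    ∑ d, C ((M i).adjugate d c) * pderiv d (Ω (s i)) with hG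
  have hGm : ∀ i c, π (blk (s i) (G i c - aeval (m i) (pderiv c (Ω i)))) = 0 := by
    intro i c
    rw [map_sub, map_sub, sub_eq_zero, ← hφblk, ← brS_XX, ← hbr, hφ, ← hF', ← hF', hbr, brS,
      Finset.sum_eq_single (s i)]
    · rw [brB_lin _ (hF _) (hF _)]
      congr 2
      refine Finset.sum_congr rfl fun d _ => ?_
      rw [← cr_adj]
      rfl
    · intro j _ hj
      rw [brB_lin _ (hF _) (hF _), Finset.sum_eq_zero, map_zero]
      intro d _
      have z1 : (fun b => lc (F (i, c + 1)) (j, b)) = 0 := funext fun b => hs0 i (c + 1) j b hj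
      rw [z1]
      have : cr 0 (fun b => lc (F (i, c + 2)) (j, b)) d = 0 := by
        fin_cases d <;> simp [cr]
      rw [this, C_0, zero_mul]
    · intro hcon; exact absurd (Finset.mem_univ (s i)) hcon
  have hmd : ∀ i a, (m i a).totalDegree ≤ 1 := by
    intro i a
    refine (totalDegree_add _ _).trans (max_le (by rw [totalDegree_C]; omega) ?_)
    refine totalDegree_finsetSum_le fun q _ => ?_
    refine (totalDegree_mul _ _).trans ?_
    rw [totalDegree_C, totalDegree_X]
  have hGh : ∀ i c, (G i c).IsHomogeneous (N (s i) - 1) := fun i c =>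
    IsHomogeneous.sum _ _ _ fun d _ => (pderiv_homog (S.pot (s i)).homogeneous d).C_mul _
  have hGd : ∀ i c, N i ≤ N (s i) → G i c = aeval (m i) (pderiv c (Ω i)) := by
    intro i c hle
    rw [← sub_eq_zero]
    refine blk_ker S (j := s i) ?_ (hGm i c)
    have e1 := totalDegree_aeval_le (m i) (hmd i) (pderiv c (Ω i))
      (pderiv_homog (S.pot i).homogeneous c).totalDegree_le
    have e2 := (hGh i c).totalDegree_le
    have e3 := totalDegree_sub (G i c) (aeval (m i) (pderiv c (Ω i)))
    have e4 := S.four_le i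
    have e5 : max (G i c).totalDegree (aeval (m i) (pderiv c (Ω i))).totalDegree < N (s i) :=
      max_lt (by omega) (by omega)
    exact lt_of_le_of_lt e3 e5
  have hle : ∀ i, N (s i) ≤ N i := by
    intro i
    by_contra hlt
    push Not at hlt
    apply hsdet i
    have hG0 : ∀ c, G i c = 0 := by
      intro c
      by_contra hne
      have e1 := (hGh i c).totalDegree hne
      have e2 := totalDegree_aeval_le (m i) (hmd i) (pderiv c (Ω i))
        (pderiv_homog (S.pot i).homogeneous c).totalDegree_le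
      rw [← hGd i c hlt.le, e1] at e2
      have e4 := S.four_le i
      omega
    have hadj : (M i).adjugate = 0 := by
      ext d c
      have e1 := lin_indep (S.pot (s i)) (by have := S.four_le (s i); omega) _ (hG0 c)
      exact congrFun e1 d
    have e1 := Matrix.adjugate_mul (M i)
    rw [hadj, zero_mul] at e1
    have e2 := congrFun (congrFun e1 0) 0
    rw [Matrix.zero_apply, Matrix.smul_apply, Matrix.one_apply_eq, smul_eq_mul, mul_one] at e2
    exact e2.symm
  have heq : ∀ i, N (s i) = N i := by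
    have h3 := (Finset.sum_eq_sum_iff_of_le (fun i (_ : i ∈ Finset.univ) => hle i)).mp
      (Equiv.sum_comp s N)
    exact fun i => h3 i (Finset.mem_univ i)
  have hfin : ∀ i, (fun a => coeff 0 (F (i, a))) = 0 ∧ M i ∈ Sol (Ω i) (Ω (s i)) := by
    intro i
    have hpot2 : IsISPotential (Ω (s i)) (N i) := by
      have := S.pot (s i)
      rwa [heq i] at this
    exact one_block_sol (S.pot i) hpot2 (by have := S.four_le i; omega) (M i) (hsdet i)
      (fun a => coeff 0 (F (i, a))) (fun c => hGd i c (heq i).ge)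
  refine ⟨s, M, fun i => (hfin i).2, fun i a => ?_⟩
  rw [← hF', hFm, hm]
  have e1 : coeff 0 (F (i, a)) = 0 := congrFun (hfin i).1 a
  simp only [e1, C_0, zero_add, map_sum, map_mul, blk_X]
  refine Finset.sum_congr rfl fun b _ => ?_
  have hC : blk (s i) (C (M i a b)) = (C (M i a b) : MvPolynomial (ι × Fin 3) k) :=
    (blk (s i)).commutes _
  rw [hC]

/-- The set of the Poisson automorphisms is finite. -/
theorem finite_aut [CharZero k] (S : Setup Ω N ξ π) (br : T → T → T)
    (hbr : ∀ F G, br (π F) (π G) = π (brS Ω F G)) :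
    {φ : T ≃ₐ[k] T | ∀ a b, φ (br a b) = br (φ a) (φ b)}.Finite := by
  set D : Set ((ι → ι) × (ι → Matrix (Fin 3) (Fin 3) k)) :=
    {x | ∀ i, x.2 i ∈ Sol (Ω i) (Ω (x.1 i))} with hD
  have hDf : D.Finite := by
    have h1 : (Set.univ ×ˢ (Set.univ.pi fun i => ⋃ j, Sol (Ω i) (Ω j)) :
        Set ((ι → ι) × (ι → Matrix (Fin 3) (Fin 3) k))).Finite :=
      Set.finite_univ.prod (Set.Finite.pi fun i =>
        Set.finite_iUnion fun j => finite_sol (S.pot i) (S.four_le i))
    refine h1.subset ?_
    rintro ⟨s, M⟩ h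
    exact ⟨Set.mem_univ _, fun i _ => Set.mem_iUnion.mpr ⟨s i, h i⟩⟩
  have hex : ∀ φ : {φ : T ≃ₐ[k] T | ∀ a b, φ (br a b) = br (φ a) (φ b)},
      ∃ x : D, ∀ i a, φ.1 (π (X (i, a))) = π (∑ b, C (x.1.2 i a b) * X (x.1.1 i, b)) := by
    rintro ⟨φ, hφ⟩
    obtain ⟨s, M, hM, h⟩ := aut_form S br hbr φ hφ
    exact ⟨⟨(s, M), hM⟩, h⟩
  choose f hf using hex
  have hinj : Function.Injective f := by
    intro φ ψ hφψ
    apply Subtype.ext
    have h1 : (φ.1 : T →ₐ[k] T).comp π = (ψ.1 : T →ₐ[k] T).comp π := by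
      apply MvPolynomial.algHom_ext
      rintro ⟨i, a⟩
      change φ.1 (π (X (i, a))) = ψ.1 (π (X (i, a)))
      rw [hf φ, hf ψ, hφψ]
    apply AlgEquiv.ext
    intro t
    obtain ⟨F, rfl⟩ := S.surj t
    exact congrArg (fun g : MvPolynomial (ι × Fin 3) k →ₐ[k] T => g F) h1
  have := hDf.to_subtype
  have h2 := Finite.of_injective f hinj
  exact Set.toFinite _

/-- The Poisson automorphisms of a tensor product of potential quotients form a finite set. -/
theorem tens_finite [CharZero k] (h : ∀ i, IsISPotential (Ω i) (N i)) (hN : ∀ i, 4 ≤ N i) :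
    {φ : TensPot Ω ξ ≃ₐ[k] TensPot Ω ξ | IsPoissonEnd Ω ξ (φ : TensPot Ω ξ →ₐ[k] TensPot Ω ξ)}.Finite :=
  finite_aut (tens_setup (ξ := ξ) h hN) (tensBr Ω ξ) tensBr_bigPi'

end main

end Pool.Agent.Helper97.DixA
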