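import Mathlib
import Pool.Agent.Helper97.Dix.Defs

set_option autoImplicit false

/-!
The Poisson automorphisms of a tensor product of Poisson potential quotients.
-/

namespace Pool.Agent.Helper97.DixA

open MvPolynomial Pool.Agent.Helper97.Dix

variable {k : Type*} [Field k] {ι : Type*} [DecidableEq ι] [Fintype ι]

/-- The Poisson automorphisms of the tensor product: the algebra automorphisms which preserve the
bracket. -/
def poissonAut (Ω : ι → MvPolynomial (Fin 3) k) (ξ : ι → k) :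
    Set (TensPot Ω ξ ≃ₐ[k] TensPot Ω ξ) :=
  {φ | ∀ a b, φ (tensBr Ω ξ a b) = tensBr Ω ξ (φ a) (φ b)}

/-- The Poisson automorphisms form a group. -/
theorem poissonAut_one (Ω : ι → MvPolynomial (Fin 3) k) (ξ : ι → k) :
    1 ∈ poissonAut Ω ξ := fun _ _ => rfl

theorem poissonAut_mul (Ω : ι → MvPolynomial (Fin 3) k) (ξ : ι → k)
    {φ ψ : TensPot Ω ξ ≃ₐ[k] TensPot Ω ξ} (hφ : φ ∈ poissonAut Ω ξ) (hψ : ψ ∈ poissonAut Ω ξ) :
    φ * ψ ∈ poissonAut Ω ξ := fun a b => by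
  rw [AlgEquiv.mul_apply, hψ a b, hφ (ψ a) (ψ b)]
  rfl

theorem poissonAut_inv (Ω : ι → MvPolynomial (Fin 3) k) (ξ : ι → k)
    {φ : TensPot Ω ξ ≃ₐ[k] TensPot Ω ξ} (hφ : φ ∈ poissonAut Ω ξ) :
    φ⁻¹ ∈ poissonAut Ω ξ := fun a b => by
  apply φ.injective
  have e : ∀ x, φ (φ⁻¹ x) = x := fun x => φ.apply_symm_apply x
  rw [hφ (φ⁻¹ a) (φ⁻¹ b), e, e, e]

end Pool.Agent.Helper97.DixA
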